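import Pool.Agent.helper60.DK.Spec

set_option autoImplicit false

namespace Pool.Agent.helper60.DK

open Polynomial Finset

/-- small integers are not zero in characteristic at least 7 -/
theorem P4Y_ne {F : Type} [Field F] (p : ℕ) [CharP F p] (hp : 7 ≤ p) (k : ℕ)
    (hk : 0 < k) (hk7 : k < 7) : (k : F) ≠ 0 := by
  intro h
  rw [CharP.cast_eq_zero_iff F p k] at h
  have := Nat.le_of_dvd hk h
  omega

/-- row dk:P4Y -/
theorem P4Y (hME : ME_stmt) (hPAR : PAR_stmt) : P4Y_stmt := by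
  intro p hpf F _ _ hp hleg a b ha hb
  have h2 : (2 : F) ≠ 0 := by simpa using P4Y_ne (F := F) p hp 2 (by norm_num) (by norm_num)
  have h3 : (3 : F) ≠ 0 := by simpa using P4Y_ne (F := F) p hp 3 (by norm_num) (by norm_num)
  have h5 : (5 : F) ≠ 0 := by simpa using P4Y_ne (F := F) p hp 5 (by norm_num) (by norm_num)
  have ha0 : a ≠ 0 := by
    rintro rfl
    apply h5
    rw [← ha]; ring
  have hb0 : b ≠ 0 := by
    rintro rfl
    apply h3
    have : (3 : F) = -(0 ^ 2) := by rw [hb]; ring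
    rw [this]; ring
  have hprod : (a - b) * (a + b) = 8 := by
    have : (a - b) * (a + b) = a ^ 2 - b ^ 2 := by ring
    rw [this, ha, hb]; norm_num
  have h8 : (8 : F) ≠ 0 := by
    have : (8 : F) = 2 ^ 3 := by norm_num
    rw [this]; exact pow_ne_zero _ h2
  have hab : a + b ≠ 0 := by
    intro h
    rw [h, mul_zero] at hprod
    exact h8 hprod.symm
  obtain ⟨h, hh⟩ : ∃ h : ℕ, p = 2 * h + 1 := by
    rcases hpf.out.eq_two_or_odd' with h | h
    · omega
    · exact h
  have hhalf : p / 2 = h := by omega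
  -- Euler criterion for -15
  have hl : ((-15 : ℤ) : F) ^ h = -1 := by
    have e := legendreSym.eq_pow p (-15)
    rw [hleg, hhalf] at e
    have e2 := congrArg (ZMod.castHom (dvd_refl p) F) e
    rw [map_pow, map_intCast, map_intCast] at e2
    rw [← e2]; norm_num
  have hfr : ∀ x y : F, (x + y) ^ p = x ^ p + y ^ p := by
    intro x y
    have := (frobenius F p).map_add x y
    simpa [frobenius_def] using this
  have h5p : (5 : F) ^ p = 5 := by
    have := map_ofNat (frobenius F p) 5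
    simpa [frobenius_def] using this
  have h2p : (2 : F) ^ p = 2 := by
    have := map_ofNat (frobenius F p) 2
    simpa [frobenius_def] using this
  obtain ⟨ε, hε⟩ : ∃ ε : F, ε = 5 ^ h := ⟨_, rfl⟩
  obtain ⟨δ, hδ⟩ : ∃ δ : F, δ = (-3) ^ h := ⟨_, rfl⟩
  have hεε : ε * ε = 1 := by
    have e1 : ε * ε * 5 = 5 := by
      rw [hε]
      calc (5 : F) ^ h * 5 ^ h * 5 = 5 ^ (2 * h + 1) := by ring
        _ = 5 := by rw [← hh, h5p]
    exact mul_right_cancel₀ h5 (by rw [e1, one_mul])
  have hεδ : ε * δ = -1 := by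
    rw [hε, hδ, ← mul_pow]
    rw [← hl]
    norm_num
  have hδε : δ = -ε := by
    calc δ = (ε * ε) * δ := by rw [hεε, one_mul]
      _ = ε * (ε * δ) := by ring
      _ = -ε := by rw [hεδ]; ring
  have hap : a ^ p = ε * a := by
    rw [hh, pow_succ, pow_mul, ha, ← hε]
  have hbp : b ^ p = -ε * b := by
    rw [hh, pow_succ, pow_mul, hb, ← hδ, hδε]
  obtain ⟨s, hs⟩ : ∃ s : F, s = (a + b) / 2 := ⟨_, rfl⟩
  have h2s : 2 * s = a + b := by rw [hs]; field_simp
  have hs0 : s ≠ 0 := by
    intro h0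
    rw [h0, mul_zero] at h2s
    exact hab h2s.symm
  have hsp : 2 * s ^ p = ε * (a - b) := by
    have e : (2 * s) ^ p = ε * (a - b) := by
      rw [h2s, hfr, hap, hbp]; ring
    rw [mul_pow, h2p] at e
    exact e
  have hsp1 : s ^ (p - 1) * (a + b) = ε * (a - b) := by
    rw [← hsp, ← h2s]
    have : s ^ p = s ^ (p - 1) * s := by
      rw [← pow_succ]
      congr 1
      omega
    rw [this]; ring
  -- the cubes
  have hs3 : 2 * s ^ 3 = 3 * b - a := by
    have : 8 * (2 * s ^ 3) = 8 * (3 * b - a) := by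
      calc 8 * (2 * s ^ 3) = 2 * (2 * s) ^ 3 := by ring
        _ = 2 * (a ^ 2 * a + 3 * a ^ 2 * b + 3 * a * b ^ 2 + b ^ 2 * b) := by rw [h2s]; ring
        _ = 8 * (3 * b - a) := by rw [ha, hb]; ring
    exact mul_left_cancel₀ h8 this
  have hs2 : 2 * s ^ 2 = 1 + a * b := by
    have : 2 * (2 * s ^ 2) = 2 * (1 + a * b) := by
      calc 2 * (2 * s ^ 2) = (2 * s) ^ 2 := by ring
        _ = a ^ 2 + 2 * a * b + b ^ 2 := by rw [h2s]; ring
        _ = 2 * (1 + a * b) := by rw [ha, hb]; ring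
    exact mul_left_cancel₀ h2 this
  have h4 : (4 : F) ≠ 0 := by
    have : (4 : F) = 2 * 2 := by norm_num
    rw [this]; exact mul_ne_zero h2 h2
  have hyb : -((s - 1) ^ 2 * (s + 2)) / 4 = (a - 1) / 2 := by
    rw [div_eq_div_iff h4 h2]
    have e : 2 * ((s - 1) ^ 2 * (s + 2)) = 4 * (1 - a) := by
      calc 2 * ((s - 1) ^ 2 * (s + 2)) = 2 * s ^ 3 - 3 * (2 * s) + 4 := by ring
        _ = 4 * (1 - a) := by rw [hs3, h2s]; ring
    linear_combination (-1 : F) * e
  have hs30 : 2 * s ^ 3 ≠ 0 := mul_ne_zero h2 (pow_ne_zero _ hs0)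
  have hya : -((s - 1) * (s + 2) ^ 2) / (2 * s ^ 3) = -1 - (a - 1) / 2 := by
    rw [div_eq_iff hs30, hs3]
    have e : 2 * ((s - 1) * (s + 2) ^ 2) = (3 * b - a) + 3 * (1 + a * b) - 8 := by
      calc 2 * ((s - 1) * (s + 2) ^ 2) = 2 * s ^ 3 + 3 * (2 * s ^ 2) - 8 := by ring
        _ = _ := by rw [hs3, hs2]
    have e3 : 2 * (-1 - (a - 1) / 2) = -(a + 1) := by field_simp; ring
    have e4 : 2 * (-((s - 1) * (s + 2) ^ 2)) = 2 * ((-1 - (a - 1) / 2) * (3 * b - a)) := by
      calc 2 * (-((s - 1) * (s + 2) ^ 2)) = -(2 * ((s - 1) * (s + 2) ^ 2)) := by ring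
        _ = -((3 * b - a) + 3 * (1 + a * b) - 8) := by rw [e]
        _ = -(a + 1) * (3 * b - a) := by
            have : (5 : F) = a ^ 2 := ha.symm
            linear_combination this
        _ = 2 * (-1 - (a - 1) / 2) * (3 * b - a) := by rw [e3]
        _ = _ := by ring
    exact mul_left_cancel₀ h2 e4
  have hm := hME p F (by omega) s hs0
  rw [hyb, hya] at hm
  have hpar : aeval (-1 - (a - 1) / 2) (Dz (nn p))
      = (-1) ^ (nn p) * aeval ((a - 1) / 2) (Dz (nn p)) := by
    have e := congrArg (aeval ((a - 1) / 2 : F)) (hPAR (nn p))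
    rw [aeval_comp, map_mul, map_pow, map_neg, map_one, map_sub, map_neg, map_one, aeval_X] at e
    exact e
  rw [hpar] at hm
  obtain ⟨D, hD⟩ : ∃ D : F, D = aeval ((a - 1) / 2) (Dz (nn p)) := ⟨_, rfl⟩
  rw [← hD] at hm ⊢
  by_contra hD0
  have hk : s ^ (p - 1) * (-1) ^ (nn p) = 1 := by
    have : s ^ (p - 1) * (-1) ^ (nn p) * D = 1 * D := by
      rw [mul_assoc, one_mul]; exact hm
    exact mul_right_cancel₀ hD0 this
  have hsign : ∀ η : F, η * η = 1 → s ^ (p - 1) * η = 1 → False := by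
    intro η hη h1
    have e1 : ε * η * (a - b) = a + b := by
      calc ε * η * (a - b) = (ε * (a - b)) * η := by ring
        _ = (s ^ (p - 1) * η) * (a + b) := by rw [← hsp1]; ring
        _ = a + b := by rw [h1, one_mul]
    have e2 : (ε * η) * (ε * η) = 1 := by
      calc (ε * η) * (ε * η) = (ε * ε) * (η * η) := by ring
        _ = 1 := by rw [hεε, hη, one_mul]
    rcases mul_self_eq_one_iff.mp e2 with e | e
    · rw [e, one_mul] at e1
      have : 2 * b = 0 := by linear_combination (-1 : F) * e1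
      rcases mul_eq_zero.mp this with h' | h'
      · exact h2 h'
      · exact hb0 h'
    · rw [e] at e1
      have : 2 * a = 0 := by linear_combination (-1 : F) * e1
      rcases mul_eq_zero.mp this with h' | h'
      · exact h2 h'
      · exact ha0 h'
  refine hsign ((-1) ^ (nn p)) ?_ hk
  rw [← mul_pow]; norm_num

end Pool.Agent.helper60.DK
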